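import Mathlib

/-!
# The limit at a common zero
-/

namespace Pool.Agent.H.MP_2786f0_ag

open Polynomial

variable {k : Type*} [Field k] {N : ℕ}

/-- The value of a weighted homogeneous polynomial at `(X ^ (w * a i) * h i)`. -/
theorem aeval_weight (a : Fin N → ℕ) (d w : ℕ) (F : MvPolynomial (Fin N) k)
    (hF : F.IsWeightedHomogeneous a d) (h : Fin N → k[X]) :
    MvPolynomial.aeval (fun i => (X : k[X]) ^ (w * a i) * h i) F =
      X ^ (w * d) * MvPolynomial.aeval h F := by
  rw [MvPolynomial.aeval_def, MvPolynomial.aeval_def, MvPolynomial.eval₂_eq',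
    MvPolynomial.eval₂_eq', Finset.mul_sum]
  refine Finset.sum_congr rfl fun m hm => ?_
  have h0 := hF (MvPolynomial.mem_support_iff.1 hm)
  rw [Finsupp.weight_apply, Finsupp.sum_fintype _ _ (fun _ => by simp)] at h0
  have h1 : ∏ i, ((X : k[X]) ^ (w * a i) * h i) ^ m i = X ^ (w * d) * ∏ i, h i ^ m i := by
    rw [← h0, Finset.mul_sum, ← Finset.prod_pow_eq_pow_sum, ← Finset.prod_mul_distrib]
    refine Finset.prod_congr rfl fun i _ => ?_
    rw [mul_pow, ← pow_mul, smul_eq_mul]
    congr 2
    ring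
  rw [h1]
  ring

/-- The substitution `X ↦ X ^ w`. -/
theorem aeval_expand (w : ℕ) (F : MvPolynomial (Fin N) k) (g : Fin N → k[X]) :
    MvPolynomial.aeval (fun i => expand k w (g i)) F = expand k w (MvPolynomial.aeval g F) := by
  have h := MvPolynomial.comp_aeval (R := k) g (expand k w)
  exact (DFunLike.congr_fun h F).symm

/-- **The limit lemma.** The `F j` are weighted homogeneous, and the indices of the nonzero coordinates
of a common zero other than `0` have coprime weights. If the polynomials `g i` of degree at most `a i`,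
not all zero, satisfy the equations and all vanish at `0`, then `g i = c_i X ^ (a i)`: let `v / w` be the
least of the numbers `ord (g i) / a i`, then `g i (X ^ w) = X ^ (v * a i) * h i`, the `h i` satisfy
the equations, the `h i (0)` are not all zero, and `w * ord (g i) = v * a i` if `h i (0) ≠ 0`; hence `w`
divides `v`. -/
theorem limit {J : Type*} (a : Fin N → ℕ) (ha : ∀ i, 1 ≤ a i) (d : J → ℕ)
    (F : J → MvPolynomial (Fin N) k) (hF : ∀ j, (F j).IsWeightedHomogeneous a (d j))
    (hX : ∀ x : Fin N → k, x ≠ 0 → (∀ j, MvPolynomial.eval x (F j) = 0) →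
      ∀ r : ℕ, (∀ i, x i ≠ 0 → r ∣ a i) → r = 1)
    (g : Fin N → k[X]) (hg : ∀ i, (g i).natDegree ≤ a i) (hg0 : ∃ i, g i ≠ 0)
    (hgF : ∀ j, MvPolynomial.aeval g (F j) = 0) (hgz : ∀ i, (g i).eval 0 = 0) (i : Fin N) :
    g i = C ((g i).coeff (a i)) * X ^ a i := by
  classical
  set o : Fin N → ℕ := fun i => (g i).natTrailingDegree with ho
  -- the minimal slope
  obtain ⟨i₁, hi₁, hmin⟩ := Finset.exists_min_image (Finset.univ.filter fun i => g i ≠ 0)
    (fun i => (o i : ℚ) / a i) (by
      obtain ⟨i, hi⟩ := hg0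
      exact ⟨i, by simpa using hi⟩)
  have hi₁0 : g i₁ ≠ 0 := (Finset.mem_filter.1 hi₁).2
  have hslope : ∀ i, g i ≠ 0 → o i₁ * a i ≤ a i₁ * o i := by
    intro i hi
    have h1 := hmin i (Finset.mem_filter.2 ⟨Finset.mem_univ _, hi⟩)
    have h2 : (0 : ℚ) < a i := by exact_mod_cast ha i
    have h3 : (0 : ℚ) < a i₁ := by exact_mod_cast ha i₁
    rw [div_le_div_iff₀ h3 h2] at h1
    have h4 : o i₁ * a i ≤ o i * a i₁ := by exact_mod_cast h1
    rw [mul_comm (a i₁)]
    exact h4
  set w := a i₁ with hw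
  set v := o i₁ with hv
  have hw1 : 0 < w := ha i₁
  have hcoeff : ∀ i n, n < o i → (g i).coeff n = 0 := fun i n hn =>
    coeff_eq_zero_of_lt_natTrailingDegree hn
  have hdvd : ∀ i, (X : k[X]) ^ (v * a i) ∣ expand k w (g i) := by
    intro i
    by_cases hi : g i = 0
    · rw [hi, map_zero]
      exact dvd_zero _
    rw [X_pow_dvd_iff]
    intro n hn
    rw [coeff_expand hw1]
    split_ifs with h
    · apply hcoeff
      obtain ⟨n', rfl⟩ := h
      rw [Nat.mul_div_cancel_left _ hw1]
      have h1 : w * n' < w * o i := lt_of_lt_of_le hn (hslope i hi)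
      exact lt_of_mul_lt_mul_left h1 (Nat.zero_le _)
    · rfl
  choose h hh using hdvd
  have hhF : ∀ j, MvPolynomial.aeval h (F j) = 0 := by
    intro j
    have h1 : (X : k[X]) ^ (v * d j) * MvPolynomial.aeval h (F j) = 0 := by
      rw [← aeval_weight a (d j) v (F j) (hF j) h]
      have h2 : (fun i => (X : k[X]) ^ (v * a i) * h i) = fun i => expand k w (g i) := by
        funext i
        rw [hh i]
      rw [h2, aeval_expand, hgF j, map_zero]
    rcases mul_eq_zero.1 h1 with h2 | h2
    · exact absurd h2 (pow_ne_zero _ X_ne_zero)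
    · exact h2
  have hhc : ∀ i, (h i).eval 0 = if w ∣ v * a i then (g i).coeff (v * a i / w) else 0 := by
    intro i
    rw [← coeff_zero_eq_eval_zero, ← coeff_expand hw1, hh i]
    have h1 := coeff_X_pow_mul (h i) (v * a i) 0
    rw [zero_add] at h1
    exact h1.symm
  have hx1 : (h i₁).eval 0 ≠ 0 := by
    rw [hhc i₁, if_pos (Dvd.intro_left v rfl), Nat.mul_div_cancel _ hw1]
    have h1 : (g i₁).coeff (g i₁).natTrailingDegree ≠ 0 := by
      have := trailingCoeff_nonzero_iff_nonzero.2 hi₁0
      exact this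
    exact h1
  have hr := hX (fun i => (h i).eval 0) (fun h0 => hx1 (congrFun h0 i₁)) (by
    intro j
    have h1 := MvPolynomial.comp_aeval (R := k) h (aeval (0 : k) : k[X] →ₐ[k] k)
    have h2 := DFunLike.congr_fun h1 (F j)
    rw [AlgHom.comp_apply, hhF j, map_zero] at h2
    exact h2.symm) (w / Nat.gcd w v) (by
    intro i hi
    have h1 : w ∣ v * a i := by
      by_contra h2
      apply hi
      show (h i).eval 0 = 0
      rw [hhc i, if_neg h2]
    obtain ⟨c, hc⟩ := h1
    have hgp : 0 < Nat.gcd w v := Nat.gcd_pos_of_pos_left _ hw1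
    have h2 : (w / Nat.gcd w v) ∣ (v / Nat.gcd w v) * a i := by
      refine ⟨c, ?_⟩
      apply Nat.eq_of_mul_eq_mul_left hgp
      calc Nat.gcd w v * (v / Nat.gcd w v * a i) = (Nat.gcd w v * (v / Nat.gcd w v)) * a i := by
            ring
        _ = v * a i := by rw [Nat.mul_div_cancel' (Nat.gcd_dvd_right w v)]
        _ = w * c := hc
        _ = (Nat.gcd w v * (w / Nat.gcd w v)) * c := by
            rw [Nat.mul_div_cancel' (Nat.gcd_dvd_left w v)]
        _ = _ := by ring
    exact (Nat.coprime_div_gcd_div_gcd hgp).dvd_of_dvd_mul_left h2)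
  have hwv : w ∣ v := by
    have h1 : w = Nat.gcd w v := by
      have h2 := Nat.div_mul_cancel (Nat.gcd_dvd_left w v)
      rw [hr, one_mul] at h2
      exact h2.symm
    rw [h1]
    exact Nat.gcd_dvd_right w v
  have hv1 : 1 ≤ v := by
    by_contra hcon
    have h1 : (g i₁).natTrailingDegree = 0 := by
      have : v = 0 := by omega
      exact this
    have h2 : (g i₁).coeff (g i₁).natTrailingDegree ≠ 0 :=
      trailingCoeff_nonzero_iff_nonzero.2 hi₁0
    rw [h1, coeff_zero_eq_eval_zero] at h2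
    exact h2 (hgz i₁)
  have hwle : w ≤ v := Nat.le_of_dvd hv1 hwv
  by_cases hi : g i = 0
  · rw [hi]
    simp
  have h1 := hslope i hi
  have h2 : a i ≤ o i := by
    have h3 : w * a i ≤ w * o i := (Nat.mul_le_mul_right _ hwle).trans h1
    exact le_of_mul_le_mul_left h3 hw1
  ext n
  rw [coeff_C_mul_X_pow]
  split_ifs with h
  · rw [h]
  · rcases lt_or_gt_of_ne h with h3 | h3
    · exact hcoeff i n (lt_of_lt_of_le h3 h2)
    · exact coeff_eq_zero_of_natDegree_lt (lt_of_le_of_lt (hg i) h3)

end Pool.Agent.H.MP_2786f0_ag
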