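import Pool.Agent.H.MP_2786f0_ag.Zero
import Pool.Agent.H.MP_2786f0_ag.Limit

/-!
# Curves of degree one through every point
-/

namespace Pool.Agent.H.MP_2786f0_ag

open Polynomial

variable {k : Type*} [Field k] {N : ℕ}

theorem prod_degree {k : Type*} [CommRing k] {N : ℕ} (a : Fin N → ℕ) (g : Fin N → k[X])
    (hg : ∀ i, (g i).natDegree ≤ a i) (m : Fin N →₀ ℕ) :
    (∏ i, g i ^ m i).natDegree ≤ ∑ i, m i * a i ∧
      (∏ i, g i ^ m i).coeff (∑ i, m i * a i) = ∏ i, (g i).coeff (a i) ^ m i := by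
  have h1 : ∀ i, (g i ^ m i).natDegree ≤ m i * a i := fun i =>
    natDegree_pow_le_of_le _ (hg i)
  constructor
  · exact (natDegree_prod_le _ _).trans (Finset.sum_le_sum fun i _ => h1 i)
  · classical
    have : ∀ s : Finset (Fin N), (∏ i ∈ s, g i ^ m i).coeff (∑ i ∈ s, m i * a i) =
        ∏ i ∈ s, (g i).coeff (a i) ^ m i := by
      intro s
      induction s using Finset.induction_on with
      | empty => simp
      | insert i s hi ih =>
        rw [Finset.prod_insert hi, Finset.sum_insert hi, Finset.prod_insert hi,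
          coeff_mul_add_eq_of_natDegree_le (h1 i)
            ((natDegree_prod_le _ _).trans (Finset.sum_le_sum fun i _ => h1 i)), ih,
          coeff_pow_of_natDegree_le (hg i)]
    exact this _

/-- The degree of the value of a weighted homogeneous polynomial at polynomials of degree `≤ a i`, and
its leading coefficient. -/
theorem aeval_degree' {k R : Type*} [CommRing k] [CommRing R] [Algebra k R] {N : ℕ}
    (a : Fin N → ℕ) (d : ℕ) (F : MvPolynomial (Fin N) k)
    (hF : F.IsWeightedHomogeneous a d) (g : Fin N → R[X]) (hg : ∀ i, (g i).natDegree ≤ a i) :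
    (MvPolynomial.aeval g F).natDegree ≤ d ∧
      (MvPolynomial.aeval g F).coeff d = MvPolynomial.aeval (fun i => (g i).coeff (a i)) F := by
  have hw : ∀ m ∈ F.support, ∑ i, m i * a i = d := by
    intro m hm
    have h := hF (MvPolynomial.mem_support_iff.1 hm)
    rw [Finsupp.weight_apply, Finsupp.sum_fintype _ _ (fun _ => by simp)] at h
    simpa using h
  have h1 : MvPolynomial.aeval g F =
      ∑ m ∈ F.support, algebraMap k R[X] (F.coeff m) * ∏ i, g i ^ m i := by
    rw [MvPolynomial.aeval_def, MvPolynomial.eval₂_eq']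
  have h2 : MvPolynomial.aeval (fun i => (g i).coeff (a i)) F =
      ∑ m ∈ F.support, algebraMap k R (F.coeff m) * ∏ i, (g i).coeff (a i) ^ m i := by
    rw [MvPolynomial.aeval_def, MvPolynomial.eval₂_eq']
  constructor
  · rw [h1]
    refine natDegree_sum_le_of_forall_le _ _ fun m hm => ?_
    have h3 := (prod_degree a g hg m).1
    rw [hw m hm] at h3
    rw [Polynomial.algebraMap_apply]
    refine (natDegree_C_mul_le _ _).trans h3
  · rw [h1, h2, finsetSum_coeff]
    refine Finset.sum_congr rfl fun m hm => ?_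
    have h3 := (prod_degree a g hg m).2
    rw [hw m hm] at h3
    rw [Polynomial.algebraMap_apply, coeff_C_mul, h3]


/-- The values of the polynomials with unknown coefficients. -/
noncomputable def gen (a : Fin N → ℕ) (p : Fin N → k) (i : Fin N) :
    (MvPolynomial (Σ i : Fin N, Fin (a i)) k)[X] :=
  C (MvPolynomial.C (p i)) * X ^ a i + ∑ m : Fin (a i), C (MvPolynomial.X ⟨i, m⟩) * X ^ (m : ℕ)

/-- The polynomials with coefficients `p i` in degree `a i` and `x` below. -/
noncomputable def spec (a : Fin N → ℕ) (p : Fin N → k) (x : (Σ i : Fin N, Fin (a i)) → k)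
    (i : Fin N) : k[X] :=
  C (p i) * X ^ a i + ∑ m : Fin (a i), C (x ⟨i, m⟩) * X ^ (m : ℕ)

theorem map_gen (a : Fin N → ℕ) (p : Fin N → k) (x : (Σ i : Fin N, Fin (a i)) → k) (i : Fin N) :
    mapAlgHom (MvPolynomial.aeval x) (gen a p i) = spec a p x i := by
  rw [gen, spec, coe_mapAlgHom, Polynomial.map_add, Polynomial.map_mul, Polynomial.map_pow,
    Polynomial.map_sum, map_C, map_X]
  congr 1
  · simp
  · refine Finset.sum_congr rfl fun m _ => ?_
    simp

theorem sum_natDegree_lt (b : ℕ) (hb : 1 ≤ b) (x : Fin b → k) :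
    (∑ m : Fin b, C (x m) * X ^ (m : ℕ)).natDegree < b := by
  have h1 : (∑ m : Fin b, C (x m) * X ^ (m : ℕ)).natDegree ≤ b - 1 := by
    refine natDegree_sum_le_of_forall_le _ _ fun m _ => ?_
    refine (natDegree_C_mul_X_pow_le _ _).trans ?_
    have := m.2
    omega
  omega

theorem spec_natDegree (a : Fin N → ℕ) (ha : ∀ i, 1 ≤ a i) (p : Fin N → k)
    (x : (Σ i : Fin N, Fin (a i)) → k) (i : Fin N) : (spec a p x i).natDegree ≤ a i := by
  rw [spec]
  refine natDegree_add_le_of_degree_le (natDegree_C_mul_X_pow_le _ _) ?_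
  exact (sum_natDegree_lt (a i) (ha i) _).le

theorem spec_coeff_top (a : Fin N → ℕ) (ha : ∀ i, 1 ≤ a i) (p : Fin N → k)
    (x : (Σ i : Fin N, Fin (a i)) → k) (i : Fin N) : (spec a p x i).coeff (a i) = p i := by
  rw [spec, coeff_add, coeff_C_mul_X_pow, if_pos rfl,
    coeff_eq_zero_of_natDegree_lt (sum_natDegree_lt (a i) (ha i) _), add_zero]

theorem spec_coeff (a : Fin N → ℕ) (p : Fin N → k)
    (x : (Σ i : Fin N, Fin (a i)) → k) (i : Fin N) (m : Fin (a i)) :
    (spec a p x i).coeff m = x ⟨i, m⟩ := by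
  have hm := m.2
  rw [spec, coeff_add, coeff_C_mul_X_pow, if_neg (by omega), zero_add, finsetSum_coeff,
    Finset.sum_eq_single m]
  · rw [coeff_C_mul_X_pow, if_pos rfl]
  · intro b _ hb
    rw [coeff_C_mul_X_pow, if_neg]
    intro h
    exact hb (Fin.ext h.symm)
  · simp

theorem coeff_sub_pow (u : k) (n m : ℕ) :
    ((X - C u) ^ n : k[X]).coeff m = (-u) ^ (n - m) * (n.choose m : k) := by
  rw [sub_eq_add_neg, ← C_neg, coeff_X_add_C_pow]

theorem aeval_spec_zero (a : Fin N → ℕ) (d : ℕ) (F : MvPolynomial (Fin N) k)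
    (hF : F.IsWeightedHomogeneous a d) (p : Fin N → k) (hp : MvPolynomial.eval p F = 0) :
    MvPolynomial.aeval (spec a p (fun _ => 0)) F = 0 := by
  have h1 : spec a p (fun _ => 0) = fun i => (X : k[X]) ^ (1 * a i) * C (p i) := by
    funext i
    rw [spec]
    simp only [C_0, zero_mul, Finset.sum_const_zero, add_zero, one_mul]
    rw [mul_comm]
  rw [h1, aeval_weight a d 1 F hF]
  have h2 : MvPolynomial.aeval (fun i => C (p i)) F = C (MvPolynomial.eval p F) := by
    have h3 : (MvPolynomial.aeval (fun i => (C (p i) : k[X])) : MvPolynomial (Fin N) k →ₐ[k] k[X]) =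
        (Algebra.ofId k k[X]).comp (MvPolynomial.aeval p) := by
      apply MvPolynomial.algHom_ext
      intro i
      simp [Algebra.ofId_apply]
    rw [h3]
    rfl
  rw [h2, hp, C_0, mul_zero]

/-- Polynomials `φ i` of degree at most `a i`, with coefficients `p i` in degree `a i`, without a common
root, which satisfy the equations: `exists_zero` for the coefficients below degree `a i` as unknowns and
the coefficients of the `F j (φ)` below degree `d j` as equations, together with the equation that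
the coefficient of `X ^ (a i₀ - 1)` in `φ i₀` is zero (`p i₀ ≠ 0`, `a i₀ ≠ 0` in `k`); `limit`. -/
theorem exists_phi [IsAlgClosed k] {c : ℕ} (a : Fin N → ℕ) (ha : ∀ i, 1 ≤ a i) (d : Fin c → ℕ)
    (F : Fin c → MvPolynomial (Fin N) k) (hF : ∀ j, (F j).IsWeightedHomogeneous a (d j))
    (hd : ∑ j, d j + 2 ≤ ∑ i, a i)
    (hX : ∀ x : Fin N → k, x ≠ 0 → (∀ j, MvPolynomial.eval x (F j) = 0) →
      ∀ r : ℕ, (∀ i, x i ≠ 0 → r ∣ a i) → r = 1)
    (p : Fin N → k) (hp : p ≠ 0) (hpF : ∀ j, MvPolynomial.eval p (F j) = 0) :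
    ∃ φ : Fin N → k[X], (∀ i, (φ i).natDegree ≤ a i) ∧ (∀ i, (φ i).coeff (a i) = p i) ∧
      (∀ j, MvPolynomial.aeval φ (F j) = 0) ∧ ∀ u : k, ∃ i, (φ i).eval u ≠ 0 := by
  obtain ⟨i₀, hp0, ha0⟩ : ∃ i, p i ≠ 0 ∧ (a i : k) ≠ 0 := by
    by_contra hcon
    push Not at hcon
    have h1 := hX p hp hpF (ringChar k) (fun i hi => (ringChar.spec k (a i)).1 (hcon i hi))
    exact CharP.ringChar_ne_one h1
  have hi0 : a i₀ - 1 < a i₀ := by
    have := ha i₀
    omega
  set E : ((Σ j : Fin c, Fin (d j)) ⊕ Unit) → MvPolynomial (Σ i : Fin N, Fin (a i)) k :=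
    Sum.elim (fun l => (MvPolynomial.aeval (gen a p) (F l.1)).coeff (l.2 : ℕ))
      (fun _ => MvPolynomial.X ⟨i₀, ⟨a i₀ - 1, hi0⟩⟩) with hEdef
  have hval : ∀ (x : (Σ i : Fin N, Fin (a i)) → k) (j : Fin c) (m : ℕ),
      MvPolynomial.eval x ((MvPolynomial.aeval (gen a p) (F j)).coeff m) =
        (MvPolynomial.aeval (spec a p x) (F j)).coeff m := by
    intro x j m
    have h1 : mapAlgHom (MvPolynomial.aeval x) (MvPolynomial.aeval (gen a p) (F j)) =
        MvPolynomial.aeval (spec a p x) (F j) := by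
      rw [← AlgHom.comp_apply, MvPolynomial.comp_aeval]
      congr 2
      funext i
      exact map_gen a p x i
    rw [← h1, coe_mapAlgHom, coeff_map]
    rfl
  have hE0 : ∀ l, MvPolynomial.eval (fun _ => 0) (E l) = 0 := by
    rintro (⟨j, m⟩ | _)
    · show MvPolynomial.eval (fun _ => 0) ((MvPolynomial.aeval (gen a p) (F j)).coeff (m : ℕ)) = 0
      rw [hval, aeval_spec_zero a (d j) (F j) (hF j) p (hpF j), coeff_zero]
    · show MvPolynomial.eval (fun _ => 0) (MvPolynomial.X _) = 0
      rw [MvPolynomial.eval_X]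
  obtain ⟨x, hx0, hx⟩ := exists_zero (k := k) (by
    rw [Fintype.card_sum, Fintype.card_sigma, Fintype.card_sigma]
    simp only [Fintype.card_fin, Fintype.card_unit]
    omega) E hE0
  refine ⟨spec a p x, spec_natDegree a ha p x, spec_coeff_top a ha p x, ?_, ?_⟩
  · intro j
    have h1 := aeval_degree' a (d j) (F j) (hF j) (spec a p x) (spec_natDegree a ha p x)
    ext m
    rw [coeff_zero]
    rcases lt_trichotomy m (d j) with h | h | h
    · rw [← hval]
      exact hx (Sum.inl ⟨j, ⟨m, h⟩⟩)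
    · rw [h, h1.2]
      simp only [spec_coeff_top a ha p x]
      exact hpF j
    · exact coeff_eq_zero_of_natDegree_lt (h1.1.trans_lt h)
  · intro u
    by_contra hcon
    push Not at hcon
    set φ := spec a p x with hφ
    have hφF : ∀ j, MvPolynomial.aeval φ (F j) = 0 := by
      intro j
      have h1 := aeval_degree' a (d j) (F j) (hF j) (spec a p x) (spec_natDegree a ha p x)
      ext m
      rw [coeff_zero]
      rcases lt_trichotomy m (d j) with h | h | h
      · rw [← hval]
        exact hx (Sum.inl ⟨j, ⟨m, h⟩⟩)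
      · rw [h, h1.2]
        simp only [spec_coeff_top a ha p x]
        exact hpF j
      · exact coeff_eq_zero_of_natDegree_lt (h1.1.trans_lt h)
    have hback : ∀ i, ((φ i).comp (X + C u)).comp (X - C u) = φ i := by
      intro i
      rw [comp_assoc, add_comp, X_comp, C_comp, sub_add_cancel, comp_X]
    have hlim := limit a ha d F hF hX (fun i => (φ i).comp (X + C u)) (fun i => by
        refine (natDegree_comp_le).trans ?_
        rw [natDegree_X_add_C, mul_one]
        exact spec_natDegree a ha p x i)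
      ⟨i₀, fun h => by
        have h1 := hback i₀
        rw [h, zero_comp] at h1
        apply hp0
        rw [← spec_coeff_top a ha p x i₀, ← hφ, ← h1, coeff_zero]⟩
      (fun j => by
        have h1 : MvPolynomial.aeval (fun i => (φ i).comp (X + C u)) (F j) =
            (aeval (X + C u : k[X])) (MvPolynomial.aeval φ (F j)) := by
          rw [← AlgHom.comp_apply, MvPolynomial.comp_aeval]
          rfl
        rw [h1, hφF j, map_zero])
      (fun i => by
        rw [eval_comp, eval_add, eval_X, eval_C, zero_add]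
        exact hcon i)
    have hφi : ∀ i, φ i = C (p i) * (X - C u) ^ a i := by
      intro i
      have h1 := hlim i
      set e := ((φ i).comp (X + C u)).coeff (a i)
      have h2 : φ i = C e * (X - C u) ^ a i := by
        rw [← hback i, h1, mul_comp, C_comp, X_pow_comp]
      have h3 : e = p i := by
        rw [← spec_coeff_top a ha p x i, ← hφ, h2, coeff_C_mul, coeff_sub_pow, Nat.sub_self,
          pow_zero, one_mul, Nat.choose_self, Nat.cast_one, mul_one]
      rw [h2, h3]
    have hu : u = 0 := by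
      have h1 : (φ i₀).coeff (a i₀ - 1) = 0 := by
        have h2 := spec_coeff a p x i₀ ⟨a i₀ - 1, hi0⟩
        have h3 := hx (Sum.inr ())
        rw [hEdef, Sum.elim_inr, MvPolynomial.eval_X] at h3
        rw [h3] at h2
        exact h2
      rw [hφi i₀, coeff_C_mul, coeff_sub_pow] at h1
      have h4 : a i₀ - (a i₀ - 1) = 1 := by omega
      rw [h4, pow_one, Nat.choose_symm (ha i₀), Nat.choose_one_right] at h1
      rcases mul_eq_zero.1 h1 with h5 | h5
      · exact absurd h5 hp0
      · rcases mul_eq_zero.1 h5 with h6 | h6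
        · exact neg_eq_zero.1 h6
        · exact absurd h6 ha0
    apply hx0
    funext l
    obtain ⟨i, m⟩ := l
    have hm := m.2
    rw [← spec_coeff a p x i m, ← hφ, hφi i, hu, C_0, sub_zero, coeff_C_mul_X_pow, if_neg (by omega)]
    rfl

theorem eval_scale (a : Fin N → ℕ) (d : ℕ) (F : MvPolynomial (Fin N) k)
    (hF : F.IsWeightedHomogeneous a d) (t : k) (y : Fin N → k) :
    MvPolynomial.eval (fun i => t ^ a i * y i) F = t ^ d * MvPolynomial.eval y F := by
  rw [MvPolynomial.eval_eq', MvPolynomial.eval_eq', Finset.mul_sum]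
  refine Finset.sum_congr rfl fun m hm => ?_
  have h := hF (MvPolynomial.mem_support_iff.1 hm)
  rw [Finsupp.weight_apply, Finsupp.sum_fintype _ _ (fun _ => by simp)] at h
  have h1 : ∏ i, (t ^ a i * y i) ^ m i = t ^ d * ∏ i, y i ^ m i := by
    rw [← h, ← Finset.prod_pow_eq_pow_sum, ← Finset.prod_mul_distrib]
    refine Finset.prod_congr rfl fun i _ => ?_
    rw [mul_pow, ← pow_mul, smul_eq_mul, mul_comm (a i)]
  rw [h1]
  ring

/-- The binary form of degree `b` with inhomogeneous form `φ`. -/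
noncomputable def hom (b : ℕ) (φ : k[X]) : MvPolynomial (Fin 2) k :=
  ∑ m ∈ Finset.range (b + 1),
    MvPolynomial.C (φ.coeff m) * (MvPolynomial.X 0 ^ m * MvPolynomial.X 1 ^ (b - m))

theorem hom_homogeneous (b : ℕ) (φ : k[X]) : (hom b φ).IsHomogeneous b := by
  refine MvPolynomial.IsHomogeneous.sum _ _ _ fun m hm => ?_
  have h1 : m + (b - m) = b := by
    have := Finset.mem_range.1 hm
    omega
  have h2 : (MvPolynomial.C (φ.coeff m) * (MvPolynomial.X 0 ^ m * MvPolynomial.X 1 ^ (b - m)) :
      MvPolynomial (Fin 2) k).IsHomogeneous (0 + (m + (b - m))) := by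
    refine (MvPolynomial.isHomogeneous_C _ _).mul ?_
    have h3 := (MvPolynomial.isHomogeneous_X k (0 : Fin 2)).pow m
    have h4 := (MvPolynomial.isHomogeneous_X k (1 : Fin 2)).pow (b - m)
    rw [one_mul] at h3 h4
    exact h3.mul h4
  rwa [zero_add, h1] at h2

theorem eval_hom (b : ℕ) (φ : k[X]) (hφ : φ.natDegree ≤ b) (u : Fin 2 → k) (hu : u 1 ≠ 0) :
    MvPolynomial.eval u (hom b φ) = u 1 ^ b * φ.eval (u 0 / u 1) := by
  rw [hom, map_sum, eval_eq_sum_range' (Nat.lt_succ_of_le hφ), Finset.mul_sum]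
  refine Finset.sum_congr rfl fun m hm => ?_
  have h1 : m ≤ b := Nat.lt_succ_iff.1 (Finset.mem_range.1 hm)
  rw [map_mul, map_mul, map_pow, map_pow, MvPolynomial.eval_C, MvPolynomial.eval_X,
    MvPolynomial.eval_X, div_pow, ← pow_sub_mul_pow (u 1) h1]
  field_simp

theorem eval_hom_zero (b : ℕ) (φ : k[X]) (u : Fin 2 → k) (hu : u 1 = 0) :
    MvPolynomial.eval u (hom b φ) = u 0 ^ b * φ.coeff b := by
  rw [hom, map_sum, Finset.sum_eq_single b]
  · rw [map_mul, map_mul, map_pow, map_pow, MvPolynomial.eval_C, MvPolynomial.eval_X,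
      MvPolynomial.eval_X, Nat.sub_self, pow_zero, mul_one, mul_comm]
  · intro m hm hmb
    have h1 : m ≤ b := Nat.lt_succ_iff.1 (Finset.mem_range.1 hm)
    rw [map_mul, map_mul, map_pow, map_pow, MvPolynomial.eval_C, MvPolynomial.eval_X,
      MvPolynomial.eval_X, hu, zero_pow (by omega), mul_zero, mul_zero]
  · intro h
    exact absurd (Finset.mem_range.2 (Nat.lt_succ_self b)) h

/-- The homogeneous form: binary forms `f i` of degree `a i` without a common zero, which satisfy
the equations, with `f (1, 0) = p`. -/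
theorem exists_line [IsAlgClosed k] {c : ℕ} (a : Fin N → ℕ) (ha : ∀ i, 1 ≤ a i) (d : Fin c → ℕ)
    (F : Fin c → MvPolynomial (Fin N) k) (hF : ∀ j, (F j).IsWeightedHomogeneous a (d j))
    (hd : ∑ j, d j + 2 ≤ ∑ i, a i)
    (hX : ∀ x : Fin N → k, x ≠ 0 → (∀ j, MvPolynomial.eval x (F j) = 0) →
      ∀ r : ℕ, (∀ i, x i ≠ 0 → r ∣ a i) → r = 1)
    (p : Fin N → k) (hp : p ≠ 0) (hpF : ∀ j, MvPolynomial.eval p (F j) = 0) :
    ∃ f : Fin N → MvPolynomial (Fin 2) k, (∀ i, (f i).IsHomogeneous (a i)) ∧
      (∀ u : Fin 2 → k, u ≠ 0 → ∃ i, MvPolynomial.eval u (f i) ≠ 0) ∧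
      (∀ j, MvPolynomial.aeval f (F j) = 0) ∧ ∀ i, MvPolynomial.eval ![1, 0] (f i) = p i := by
  obtain ⟨φ, hφ1, hφ2, hφ3, hφ4⟩ := exists_phi a ha d F hF hd hX p hp hpF
  refine ⟨fun i => hom (a i) (φ i), fun i => hom_homogeneous _ _, ?_, ?_, ?_⟩
  · intro u hu
    by_cases h : u 1 = 0
    · obtain ⟨i, hi⟩ : ∃ i, p i ≠ 0 := by
        by_contra hcon
        push Not at hcon
        exact hp (funext hcon)
      refine ⟨i, ?_⟩
      rw [eval_hom_zero _ _ _ h, hφ2]
      have h0 : u 0 ≠ 0 := by
        intro h0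
        apply hu
        funext j
        fin_cases j
        · exact h0
        · exact h
      exact mul_ne_zero (pow_ne_zero _ h0) hi
    · obtain ⟨i, hi⟩ := hφ4 (u 0 / u 1)
      refine ⟨i, ?_⟩
      rw [eval_hom _ _ (hφ1 i) _ h]
      exact mul_ne_zero (pow_ne_zero _ h) hi
  · intro j
    apply MvPolynomial.funext
    intro u
    rw [map_zero]
    have h1 : MvPolynomial.eval u (MvPolynomial.aeval (fun i => hom (a i) (φ i)) (F j)) =
        MvPolynomial.eval (fun i => MvPolynomial.eval u (hom (a i) (φ i))) (F j) := by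
      have h2 := MvPolynomial.comp_aeval (R := k) (fun i => hom (a i) (φ i))
        (MvPolynomial.aeval u : MvPolynomial (Fin 2) k →ₐ[k] k)
      have h3 := DFunLike.congr_fun h2 (F j)
      exact h3
    rw [h1]
    by_cases h : u 1 = 0
    · simp only [eval_hom_zero _ _ _ h, hφ2]
      rw [eval_scale a (d j) (F j) (hF j), hpF j, mul_zero]
    · have h2 : (fun i => MvPolynomial.eval u (hom (a i) (φ i))) =
          fun i => u 1 ^ a i * (φ i).eval (u 0 / u 1) := by
        funext i
        exact eval_hom _ _ (hφ1 i) _ h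
      rw [h2, eval_scale a (d j) (F j) (hF j)]
      have h3 : MvPolynomial.eval (fun i => (φ i).eval (u 0 / u 1)) (F j) =
          (MvPolynomial.aeval φ (F j)).eval (u 0 / u 1) := by
        have h4 := MvPolynomial.comp_aeval (R := k) φ
          (aeval (u 0 / u 1) : k[X] →ₐ[k] k)
        have h5 := DFunLike.congr_fun h4 (F j)
        exact h5.symm
      rw [h3, hφ3 j, eval_zero, mul_zero]
  · intro i
    rw [eval_hom_zero _ _ _ (by simp), hφ2]
    simp

end Pool.Agent.H.MP_2786f0_ag
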