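import Mathlib

/-!
# Fewer equations than unknowns
-/

namespace Pool.Agent.H.MP_2786f0_ag

open MvPolynomial

variable {k : Type*} [Field k]

/-- The map `X i ↦ 0` (`i < j`), `X i ↦ X i` (`j ≤ i`). -/
noncomputable def cutMap (k : Type*) [Field k] (n j : ℕ) :
    MvPolynomial (Fin n) k →ₐ[k] MvPolynomial (Fin n) k :=
  aeval fun i => if (i : ℕ) < j then 0 else X i

theorem cutMap_lt (n j : ℕ) (hj : j < n) :
    RingHom.ker (cutMap k n j) < RingHom.ker (cutMap k n (j + 1)) := by
  refine lt_of_le_of_ne ?_ ?_
  · intro P hP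
    rw [RingHom.mem_ker] at hP ⊢
    have h1 : (cutMap k n (j + 1)).comp (cutMap k n j) = cutMap k n (j + 1) := by
      apply MvPolynomial.algHom_ext
      intro i
      simp only [cutMap, AlgHom.comp_apply, aeval_X]
      by_cases h : (i : ℕ) < j
      · rw [if_pos h, if_pos (by omega), map_zero]
      · rw [if_neg h, aeval_X]
    rw [← h1, AlgHom.comp_apply, hP, map_zero]
  · intro h
    have h1 : (X ⟨j, hj⟩ : MvPolynomial (Fin n) k) ∈ RingHom.ker (cutMap k n (j + 1)) := by
      rw [RingHom.mem_ker]
      simp [cutMap]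
    rw [← h, RingHom.mem_ker] at h1
    simp [cutMap] at h1

theorem height_cutMap (n j : ℕ) (hj : j ≤ n) :
    (j : ℕ∞) ≤ (RingHom.ker (cutMap k n j)).height := by
  induction j with
  | zero => simp
  | succ j ih =>
    have h1 := ih (by omega)
    have h2 : (RingHom.ker (cutMap k n j)).IsPrime := RingHom.ker_isPrime _
    have h3 : (RingHom.ker (cutMap k n (j + 1))).IsPrime := RingHom.ker_isPrime _
    have h4 := Ideal.height_add_one_le_of_lt_of_isPrime (cutMap_lt (k := k) n j (by omega))
    refine le_trans ?_ h4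
    push_cast
    gcongr

/-- The ideal of the coordinate origin has height at least the number of variables: the kernels of
`X i ↦ 0` (`i < j`), `X i ↦ X i` (`j ≤ i`) form a chain of primes. -/
theorem height_origin {n : ℕ} : (n : ℕ∞) ≤
    (RingHom.ker (aeval (fun _ => 0) : MvPolynomial (Fin n) k →ₐ[k] k)).height := by
  have h1 : RingHom.ker (aeval (fun _ => 0) : MvPolynomial (Fin n) k →ₐ[k] k) =
      RingHom.ker (cutMap k n n) := by
    have h2 : cutMap k n n = (Algebra.ofId k (MvPolynomial (Fin n) k)).comp
        (aeval (fun _ => 0) : MvPolynomial (Fin n) k →ₐ[k] k) := by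
      apply MvPolynomial.algHom_ext
      intro i
      simp [cutMap]
    ext P
    rw [RingHom.mem_ker, RingHom.mem_ker, h2, AlgHom.comp_apply]
    constructor
    · intro h
      rw [h, map_zero]
    · intro h
      exact (algebraMap k (MvPolynomial (Fin n) k)).injective (by rw [map_zero]; exact h)
  rw [h1]
  exact height_cutMap n n le_rfl

/-- The case of the variables `Fin n`. -/
theorem exists_zero_fin [IsAlgClosed k] {n : ℕ} {κ : Type*} [Fintype κ]
    (hc : Fintype.card κ < n) (E : κ → MvPolynomial (Fin n) k)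
    (hE : ∀ l, eval (fun _ => 0) (E l) = 0) :
    ∃ x : Fin n → k, x ≠ 0 ∧ ∀ l, eval x (E l) = 0 := by
  by_contra hcon
  push Not at hcon
  set I : Ideal (MvPolynomial (Fin n) k) := Ideal.span (Set.range E) with hI
  set m : Ideal (MvPolynomial (Fin n) k) :=
    RingHom.ker (aeval (fun _ => 0) : MvPolynomial (Fin n) k →ₐ[k] k) with hm
  have hmp : m.IsPrime := RingHom.ker_isPrime _
  have hIm : I ≤ m := by
    rw [hI, Ideal.span_le]
    rintro _ ⟨l, rfl⟩
    exact hE l
  have hrad : m ≤ I.radical := by
    intro P hP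
    rw [← vanishingIdeal_zeroLocus_eq_radical (K := k)]
    intro x hx
    have hx0 : x = 0 := by
      by_contra hne
      obtain ⟨l, hl⟩ := hcon x hne
      exact hl (hx (E l) (Ideal.subset_span ⟨l, rfl⟩))
    rw [hx0]
    exact hP
  have hmin : m ∈ I.minimalPrimes := by
    refine ⟨⟨hmp, hIm⟩, fun q hq _ => ?_⟩
    exact hrad.trans (hq.1.radical_le_iff.2 hq.2)
  have h1 := Ideal.height_le_card_of_mem_minimalPrimes_span (Set.finite_range E) hmin
  have h2 := height_origin (k := k) (n := n)
  have h3 : ((Set.range E).ncard : ℕ∞) ≤ Fintype.card κ := by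
    have h4 : (Set.range E).ncard ≤ Fintype.card κ := by
      rw [← Set.image_univ]
      refine (Set.ncard_image_le Set.finite_univ).trans ?_
      rw [Set.ncard_univ, Nat.card_eq_fintype_card]
    exact_mod_cast h4
  have h5 : (n : ℕ∞) ≤ Fintype.card κ := by
    refine h2.trans (le_trans ?_ h3)
    convert h1 using 1
  have h6 : n ≤ Fintype.card κ := by exact_mod_cast h5
  omega

/-- Fewer equations without constant term than unknowns have a common zero which is not `0`:
Nullstellensatz and Krull's height theorem. -/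
theorem exists_zero [IsAlgClosed k] {ι κ : Type*} [Fintype ι] [Fintype κ]
    (hc : Fintype.card κ < Fintype.card ι) (E : κ → MvPolynomial ι k)
    (hE : ∀ l, eval (fun _ => 0) (E l) = 0) :
    ∃ x : ι → k, x ≠ 0 ∧ ∀ l, eval x (E l) = 0 := by
  classical
  set e := Fintype.equivFin ι
  obtain ⟨x, hx, h⟩ := exists_zero_fin (n := Fintype.card ι) hc (fun l => rename e (E l)) (by
    intro l
    rw [eval_rename]
    exact hE l)
  refine ⟨x ∘ e, ?_, fun l => ?_⟩
  · intro h0
    apply hx
    funext i
    have := congrFun h0 (e.symm i)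
    simpa using this
  · have h1 := h l
    rw [eval_rename] at h1
    exact h1

end Pool.Agent.H.MP_2786f0_ag
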